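import Pool.Agent.H.MP_055c61_al.Main

set_option autoImplicit false

namespace Pool.Agent.Results.MP_055c61_al.Q2

theorem result (p : ℕ) (hp : p.Prime) (Ω G : Type) [Group G] [MulAction G Ω] [FaithfulSMul G Ω]
    (hfin : ∀ g : G, {x : Ω | g • x ≠ x}.Finite) (N : Subgroup G) [N.Normal] (S : Sylow p G)
    (htr : ∀ x y : Ω, ∃ s ∈ (S : Subgroup G), s • x = y) :
    ∃ T : Sylow p (G ⧸ N), (T : Subgroup (G ⧸ N)) = (S : Subgroup G).map (QuotientGroup.mk' N) :=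
  haveI : Fact p.Prime := ⟨hp⟩
  Pool.Agent.H.MP_055c61_al.q2 hfin S htr N

end Pool.Agent.Results.MP_055c61_al.Q2
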